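import Mathlib
import Pool.Agent.W434.BW.StmC

/-!
Project BW: core, no affine quotients of the subclone.
-/

set_option autoImplicit false

namespace Pool.Agent.W435.BW

open Pool.Agent.W434.BW

variable {A : Type}

theorem clG {E : Ops A} (hE : IsCl E) (C P : Set A) : IsCl (GC E C P) := by
  refine ⟨fun k i => ⟨hE.1 k i, fun x y hxy => hxy i⟩, ?_⟩
  intro k m f g hf hg
  refine ⟨hE.2 k m f g hf.1 (fun i => (hg i).1), fun x y hxy => ?_⟩
  exact hf.2 _ _ (fun i => (hg i).2 x y hxy)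

/-- binary composition -/
theorem comp2 {E : Ops A} (hE : IsCl E) {m : ℕ} {f : (Fin 2 → A) → A} (hf : f ∈ E 2)
    {g0 g1 : (Fin m → A) → A} (h0 : g0 ∈ E m) (h1 : g1 ∈ E m) :
    (fun x : Fin m → A => f ![g0 x, g1 x]) ∈ E m := by
  have h := hE.2 2 m f ![g0, g1] hf (by
    intro i
    fin_cases i
    · exact h0
    · exact h1)
  have e : (fun x : Fin m → A => f (fun i => (![g0, g1] i) x)) =
      (fun x : Fin m → A => f ![g0 x, g1 x]) := by
    funext x
    congr 1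
    exact vec2 (fun g : (Fin m → A) → A => g x) g0 g1
  rw [e] at h
  exact h

/-- composition with `Fin.cons` -/
theorem compCons {E : Ops A} (hE : IsCl E) {m r : ℕ} {f : (Fin (r + 1) → A) → A}
    (hf : f ∈ E (r + 1)) {g0 : (Fin m → A) → A} {g : Fin r → (Fin m → A) → A}
    (h0 : g0 ∈ E m) (h1 : ∀ i, g i ∈ E m) :
    (fun x : Fin m → A => f (Fin.cons (g0 x) (fun i => g i x))) ∈ E m := by
  have h := hE.2 (r + 1) m f (Fin.cons g0 g : Fin (r + 1) → (Fin m → A) → A) hf (by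
    intro i
    refine Fin.cases ?_ (fun j => ?_) i
    · exact h0
    · exact h1 j)
  have e : (fun x : Fin m → A => f (fun i => (Fin.cons g0 g : Fin (r + 1) → (Fin m → A) → A) i x)) =
      (fun x : Fin m → A => f (Fin.cons (g0 x) (fun i => g i x))) := by
    funext x
    congr 1
    funext i
    refine Fin.cases ?_ (fun j => ?_) i
    · rfl
    · rfl
  rw [e] at h
  exact h

/-- one step -/
def stp {r : ℕ} (F : (Fin (r + 1) → A) → A) (T : (Fin 2 → A) → A) (n : ℕ)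
    (z : Fin (n + 1 + r) → A) (y : A) : A :=
  F (Fin.cons (T ![z (Fin.castAdd r 0), y]) (fun j => z (Fin.natAdd (n + 1) j)))

/-- the star operation -/
def star {r : ℕ} (F : (Fin (r + 1) → A) → A) (T : (Fin 2 → A) → A) (n m : ℕ)
    (f : (Fin (n + 1) → A) → A) (z : Fin (n + 1 + r) → A) : A :=
  f (fun i => (stp F T n z)^[m] (z (Fin.castAdd r i)))

theorem iter_mem {E : Ops A} (hE : IsCl E) {r : ℕ} {F : (Fin (r + 1) → A) → A}
    {T : (Fin 2 → A) → A} (hF : F ∈ E (r + 1)) (hT : T ∈ E 2) (n j : ℕ) (i : Fin (n + 1)) :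
    (fun z : Fin (n + 1 + r) → A => (stp F T n z)^[j] (z (Fin.castAdd r i))) ∈
      E (n + 1 + r) := by
  induction j with
  | zero => exact hE.1 (n + 1 + r) (Fin.castAdd r i)
  | succ j ih =>
    have h1 := comp2 hE hT (hE.1 (n + 1 + r) (Fin.castAdd r 0)) ih
    have h2 := compCons hE hF h1 (g := fun (j : Fin r) z => z (Fin.natAdd (n + 1) j))
      (fun j => hE.1 (n + 1 + r) (Fin.natAdd (n + 1) j))
    have e : (fun z : Fin (n + 1 + r) → A => (stp F T n z)^[j + 1] (z (Fin.castAdd r i))) =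
        (fun z : Fin (n + 1 + r) → A => F (Fin.cons (T ![z (Fin.castAdd r 0),
          (stp F T n z)^[j] (z (Fin.castAdd r i))]) (fun j => z (Fin.natAdd (n + 1) j)))) := by
      funext z
      rw [Function.iterate_succ_apply']
      rfl
    rw [e]
    exact h2

theorem star_mem {E : Ops A} {C P : Set A} (hE : IsCl E) (hC : ClSub E C) (hP : ClSub E P)
    {r : ℕ} {F : (Fin (r + 1) → A) → A} {T : (Fin 2 → A) → A}
    (hF : F ∈ GC E C P (r + 1)) (hT : T ∈ GC E C P 2) (hTC : ∀ x ∈ C, ∀ y ∈ P, T ![x, y] ∈ C)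
    (n m : ℕ) (f : (Fin (n + 1) → A) → A) (hf : f ∈ E (n + 1)) :
    star F T n (m + 1) f ∈ GC E C P (n + 1 + r) := by
  have hX := fun j i => iter_mem hE hF.1 hT.1 n j i
  refine ⟨hE.2 (n + 1) (n + 1 + r) f _ hf (fun i => hX (m + 1) i), ?_⟩
  intro z z' hz
  have hzP : ∀ i, z i ∈ P := fun i => (hz i).1
  have hzP' : ∀ i, z' i ∈ P := fun i => (hz i).2.1
  have hXP : ∀ j i, (stp F T n z)^[j] (z (Fin.castAdd r i)) ∈ P :=
    fun j i => hP _ _ (hX j i) z hzP
  have hXP' : ∀ j i, (stp F T n z')^[j] (z' (Fin.castAdd r i)) ∈ P :=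
    fun j i => hP _ _ (hX j i) z' hzP'
  have hT2 : ∀ a ∈ P, ∀ b ∈ P, T ![a, b] ∈ P := by
    intro a ha b hb
    apply hP 2 T hT.1
    intro i
    fin_cases i
    · exact ha
    · exact hb
  have hpair : ∀ i j : Fin (n + 1), ((stp F T n z)^[m + 1] (z (Fin.castAdd r i)),
      (stp F T n z')^[m + 1] (z' (Fin.castAdd r j))) ∈ RC C P := by
    intro i j
    rw [Function.iterate_succ_apply', Function.iterate_succ_apply']
    apply hF.2
    intro l
    refine Fin.cases ?_ (fun l => ?_) l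
    · refine ⟨hT2 _ (hzP _) _ (hXP m i), hT2 _ (hzP' _) _ (hXP' m j), ?_⟩
      rcases (hz (Fin.castAdd r 0)).2.2 with h | h
      · exact Or.inl (hTC _ h _ (hXP m i))
      · exact Or.inr (hTC _ h _ (hXP' m j))
    · exact hz (Fin.natAdd (n + 1) l)
  refine ⟨hP _ _ hf _ (fun i => hXP (m + 1) i), hP _ _ hf _ (fun i => hXP' (m + 1) i), ?_⟩
  by_cases hall : ∀ i : Fin (n + 1), (stp F T n z)^[m + 1] (z (Fin.castAdd r i)) ∈ C
  · exact Or.inl (hC _ _ hf _ hall)
  · push Not at hall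
    obtain ⟨i, hi⟩ := hall
    refine Or.inr (hC _ _ hf _ (fun j => ?_))
    rcases (hpair i j).2.2 with h | h
    · exact absurd h hi
    · exact h

/-- the set `K` -/
abbrev KK (E : Ops A) (C P : Set A) : Type :=
  {g : (Fin 2 → A) → A // g ∈ E 2 ∧ ∀ c ∈ C, ∀ y ∈ P, g ![c, y] ∈ C}

theorem K_G {E : Ops A} {C P : Set A} (hP : ClSub E P) (g : KK E C P) :
    g.1 ∈ GC E C P 2 := by
  refine ⟨g.2.1, fun x y hxy => ⟨hP _ _ g.2.1 _ (fun i => (hxy i).1),
    hP _ _ g.2.1 _ (fun i => (hxy i).2.1), ?_⟩⟩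
  have e : ∀ x : Fin 2 → A, x = ![x 0, x 1] := by
    intro x
    funext i
    fin_cases i <;> rfl
  rcases (hxy 0).2.2 with h | h
  · left
    show g.1 x ∈ C
    rw [e x]
    exact g.2.2 _ h _ (hxy 1).1
  · right
    show g.1 y ∈ C
    rw [e y]
    exact g.2.2 _ h _ (hxy 1).2.1

/-- operations on `K` -/
def fK {E : Ops A} {C P : Set A} (hE : IsCl E) (hC : ClSub E C) {k : ℕ}
    (f : (Fin k → A) → A) (hf : f ∈ E k) (x : Fin k → KK E C P) : KK E C P :=
  ⟨fun p => f (fun i => (x i).1 p), hE.2 k 2 f _ hf (fun i => (x i).2.1),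
    fun c hc y hy => hC k f hf _ (fun i => (x i).2.2 c hc y hy)⟩

theorem fK_val {E : Ops A} {C P : Set A} (hE : IsCl E) (hC : ClSub E C) {k : ℕ}
    (f : (Fin k → A) → A) (hf : f ∈ E k) (x : Fin k → KK E C P) (p : Fin 2 → A) :
    (fK hE hC f hf x).1 p = f (fun i => (x i).1 p) := rfl

theorem vecval {E : Ops A} {C P : Set A} (x y : KK E C P) (p : Fin 2 → A) :
    (fun i : Fin 2 => ((![x, y] i : KK E C P)).1 p) = ![x.1 p, y.1 p] :=
  vec2 (fun g : KK E C P => g.1 p) x y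

theorem nlc (hm : S_minimg) : S_nlc := by
  classical
  intro A _ E C P v w hE hid hv hw hlink hC hP hCP P0 hP0 Q _ _ q h T hT hhom hsurj hadd hTC hTh s
  obtain ⟨a0, ha0⟩ := hsurj 0
  obtain ⟨as, has⟩ := hsurj s
  obtain ⟨r, ⟨κ⟩⟩ := Finite.exists_equiv_fin (KK E C P)
  have hG := clG hE C P
  -- the map φ0
  have hmemP0 : ∀ g : KK E C P, g.1 ![(a0 : A), as] ∈ P0 := by
    intro g
    refine hP0 (⟨2, ⟨g.1, K_G hP g⟩⟩ : OpSym (GC E C P)) ![(a0 : A), as] ?_
    intro i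
    have key : ∀ i : Fin 2, (![(a0 : A), as] i) ∈ P0 := by
      intro i
      fin_cases i
      · exact a0.2
      · exact as.2
    exact key i
  obtain ⟨φ, hφ⟩ : ∃ φ : KK E C P → Q, ∀ g, φ g = h ⟨g.1 ![(a0 : A), as], hmemP0 g⟩ :=
    ⟨_, fun _ => rfl⟩
  have hφhom : ∀ (k : ℕ) (f : (Fin k → A) → A) (hf : f ∈ GC E C P k) (x : Fin k → KK E C P)
      (g : KK E C P), (g.1 ![(a0 : A), as] = f (fun i => (x i).1 ![(a0 : A), as])) →
      φ g = q (⟨k, ⟨f, hf⟩⟩ : OpSym (GC E C P)) (fun i => φ (x i)) := by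
    intro k f hf x g hg
    have h1 := hhom (⟨k, ⟨f, hf⟩⟩ : OpSym (GC E C P))
      (fun i : Fin k => (⟨(x i).1 ![(a0 : A), as], hmemP0 (x i)⟩ : P0))
    rw [hφ]
    have h2 : (⟨g.1 ![(a0 : A), as], hmemP0 g⟩ : P0) =
        subA (clA (GC E C P)) P0 hP0 (⟨k, ⟨f, hf⟩⟩ : OpSym (GC E C P))
          (fun i : Fin k => (⟨(x i).1 ![(a0 : A), as], hmemP0 (x i)⟩ : P0)) := by
      apply Subtype.ext
      exact hg
    rw [h2, h1]
    congr 1
    funext i
    exact (hφ (x i)).symm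
  obtain ⟨TK, hTK⟩ : ∃ TK : KK E C P → KK E C P → KK E C P,
      ∀ x y p, (TK x y).1 p = T ![x.1 p, y.1 p] := by
    refine ⟨fun x y => fK hE hC T hT.1 ![x, y], fun x y p => ?_⟩
    rw [fK_val, vecval]
  have hTKφ : ∀ x y, φ (TK x y) = φ y := by
    intro x y
    rw [hφ, hφ]
    exact hTh ⟨_, hmemP0 x⟩ ⟨_, hmemP0 y⟩ ⟨_, hmemP0 (TK x y)⟩ (hTK x y _)
  -- the monoid M
  obtain ⟨M, hM⟩ : ∃ M : Set (KK E C P → KK E C P), ∀ e, e ∈ M ↔ ((∀ g, φ (e g) = φ g) ∧
      ∃ F ∈ GC E C P (r + 1), ∀ g p, (e g).1 p =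
        F (Fin.cons (g.1 p) (fun j => (κ.symm j).1 p))) :=
    ⟨{e | (∀ g, φ (e g) = φ g) ∧
      ∃ F ∈ GC E C P (r + 1), ∀ g p, (e g).1 p =
        F (Fin.cons (g.1 p) (fun j => (κ.symm j).1 p))}, fun e => Iff.rfl⟩
  obtain ⟨e, heM, hee, heinj⟩ := hm (KK E C P) Q φ M
    (by
      rw [hM]
      refine ⟨fun g => rfl, fun z => z 0, hG.1 (r + 1) 0, fun g p => rfl⟩)
    (by
      intro e he f hf
      rw [hM] at he hf ⊢
      obtain ⟨he1, F, hF, he2⟩ := he
      obtain ⟨hf1, F', hF', hf2⟩ := hf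
      refine ⟨fun g => by rw [he1, hf1], fun z => F (Fin.cons (F' z) (fun j => z j.succ)), ?_, ?_⟩
      · exact compCons hG hF hF' (fun j => hG.1 (r + 1) j.succ)
      · intro g p
        rw [he2, hf2]
        congr 1)
    (by
      intro e he x
      rw [hM] at he
      exact he.1 x)
  obtain ⟨heφ, F, hF, heF⟩ := (hM e).1 heM
  have hTM : ∀ x, (fun y => TK x y) ∈ M := by
    intro x
    rw [hM]
    refine ⟨fun g => hTKφ x g, fun z => T ![z (κ x).succ, z 0], ?_, ?_⟩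
    · exact comp2 hG hT (hG.1 (r + 1) (κ x).succ) (hG.1 (r + 1) 0)
    · intro g p
      have h1 : ((κ.symm (κ x)).1 : (Fin 2 → A) → A) p = x.1 p := by
        rw [Equiv.symm_apply_apply]
      rw [hTK, ← h1]
      rfl
  -- permutations of N
  obtain ⟨NN, hNN⟩ : ∃ NN : Set (KK E C P), ∀ x, x ∈ NN ↔ e x = x := ⟨{x | e x = x}, fun _ => Iff.rfl⟩
  obtain ⟨m, hmpos⟩ : ∃ m, Nat.card (Equiv.Perm NN) = m + 1 :=
    ⟨Nat.card (Equiv.Perm NN) - 1, by
      have : 0 < Nat.card (Equiv.Perm NN) := Nat.card_pos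
      omega⟩
  have hperm : ∀ x : KK E C P, ∀ y ∈ NN, (fun y => e (TK x y))^[m + 1] y = y := by
    intro x y hy
    have hmaps : ∀ z : NN, e (TK x z.1) ∈ NN := fun z => (hNN _).2 (hee _)
    have hinj : Function.Injective (fun z : NN => (⟨e (TK x z.1), hmaps z⟩ : NN)) := by
      intro z z' hzz'
      have h1 := congrArg Subtype.val hzz'
      exact Subtype.ext (heinj _ (hTM x) z.1 z'.1 ((hNN _).1 z.2) ((hNN _).1 z'.2) h1)
    have hbij : Function.Bijective (fun z : NN => (⟨e (TK x z.1), hmaps z⟩ : NN)) :=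
      Finite.injective_iff_bijective.1 hinj
    obtain ⟨σ, hσ⟩ : ∃ σ : Equiv.Perm NN, ∀ z, (σ z).1 = e (TK x z.1) :=
      ⟨Equiv.ofBijective _ hbij, fun z => rfl⟩
    have h1 : σ ^ (m + 1) = 1 := by
      rw [← hmpos]
      exact pow_card_eq_one'
    have h2 : ∀ (j : ℕ) (z : NN), ((σ ^ j) z).1 = (fun y => e (TK x y))^[j] z.1 := by
      intro j
      induction j with
      | zero => intro z; rfl
      | succ j ih =>
        intro z
        rw [pow_succ', Equiv.Perm.mul_apply, hσ, ih, Function.iterate_succ_apply']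
    have h3 := h2 (m + 1) ⟨y, hy⟩
    rw [h1] at h3
    exact h3.symm
  -- star lemma, values
  have hstar : ∀ (n : ℕ) (f : (Fin (n + 1) → A) → A) (hf : f ∈ E (n + 1))
      (x : Fin (n + 1) → KK E C P) (p : Fin 2 → A), (∀ i, x i ∈ NN) →
      star F T n (m + 1) f (Fin.append (fun i => (x i).1 p) (fun j => (κ.symm j).1 p)) =
        f (fun i => (x i).1 p) := by
    intro n f hf x p hx
    unfold star
    congr 1
    funext i
    rw [Fin.append_left]
    have h1 : ∀ (j : ℕ) (y : KK E C P),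
        (stp F T n (Fin.append (fun i => (x i).1 p) (fun j => (κ.symm j).1 p)))^[j] (y.1 p) =
        ((fun y => e (TK (x 0) y))^[j] y).1 p := by
      intro j y
      induction j with
      | zero => rfl
      | succ j ih =>
        rw [Function.iterate_succ_apply', Function.iterate_succ_apply', ih, heF, hTK]
        unfold stp
        rw [Fin.append_left]
        congr 2
        funext l
        rw [Fin.append_right]
    rw [h1, hperm (x 0) (x i) (hx i)]
  -- additivity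
  have hlin : ∀ (n : ℕ) (f : (Fin (n + 1) → A) → A) (hf : f ∈ E (n + 1)),
      ∃ (L : (Fin (n + 1) → Q) → Q) (c : Q), (∀ u u', L (fun i => u i + u' i) = L u + L u') ∧
        ∀ x : Fin (n + 1) → KK E C P, (∀ i, x i ∈ NN) →
          φ (fK hE hC f hf x) = L (fun i => φ (x i)) + c := by
    intro n f hf
    have hs := star_mem hE hC hP hF hT hTC n m f hf
    refine ⟨fun u => q (⟨n + 1 + r, ⟨_, hs⟩⟩ : OpSym (GC E C P)) (Fin.append u (fun _ => 0)),
      q (⟨n + 1 + r, ⟨_, hs⟩⟩ : OpSym (GC E C P))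
        (Fin.append (fun _ => 0) (fun j => φ (κ.symm j))), ?_, ?_⟩
    · intro u u'
      dsimp only
      rw [← hadd]
      congr 1
      funext i
      refine Fin.addCases (fun i => ?_) (fun j => ?_) i
      · rw [Fin.append_left, Fin.append_left, Fin.append_left]
      · rw [Fin.append_right, Fin.append_right, Fin.append_right, add_zero]
    · intro x hx
      have h1 := hφhom (n + 1 + r) _ hs (Fin.append x (fun j => κ.symm j)) (fK hE hC f hf x) (by
        rw [fK_val, ← hstar n f hf x _ hx]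
        congr 1
        funext i
        refine Fin.addCases (fun i => ?_) (fun j => ?_) i
        · rw [Fin.append_left, Fin.append_left]
        · rw [Fin.append_right, Fin.append_right])
      rw [h1]
      dsimp only
      rw [← hadd]
      congr 1
      funext i
      refine Fin.addCases (fun i => ?_) (fun j => ?_) i
      · rw [Fin.append_left, Fin.append_left, Fin.append_left, add_zero]
      · rw [Fin.append_right, Fin.append_right, Fin.append_right, zero_add]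
  -- the two elements of N
  obtain ⟨g0, hg0⟩ : ∃ g : KK E C P, ∀ p, g.1 p = p 0 :=
    ⟨⟨fun p => p 0, hE.1 2 0, fun c hc y hy => hc⟩, fun p => rfl⟩
  obtain ⟨g1, hg1⟩ : ∃ g : KK E C P, ∀ p, g.1 p = T p :=
    ⟨⟨T, hT.1, hTC⟩, fun p => rfl⟩
  have hφg0 : φ g0 = 0 := by
    rw [hφ, ← ha0]
    congr 1
    apply Subtype.ext
    exact hg0 _
  have hφg1 : φ g1 = s := by
    rw [hφ, ← has]
    exact hTh a0 as ⟨_, hmemP0 g1⟩ (hg1 _)
  obtain ⟨n0, hn0⟩ : ∃ n0, n0 = e g0 := ⟨_, rfl⟩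
  obtain ⟨n1, hn1⟩ : ∃ n1, n1 = e g1 := ⟨_, rfl⟩
  have hn0N : n0 ∈ NN := (hNN _).2 (by rw [hn0]; exact hee _)
  have hn1N : n1 ∈ NN := (hNN _).2 (by rw [hn1]; exact hee _)
  have hφn0 : φ n0 = 0 := by rw [hn0, heφ, hφg0]
  have hφn1 : φ n1 = s := by rw [hn1, heφ, hφg1]
  obtain ⟨l1, l2, l3, l4, l5⟩ := hlink
  have ev3 : ∀ x y z : KK E C P, ∀ p, (fK hE hC v hv ![x, y, z]).1 p =
      v ![x.1 p, y.1 p, z.1 p] := by
    intro x y z p
    rw [fK_val]
    congr 1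
    exact vec3 (fun g : KK E C P => g.1 p) x y z
  have ev4 : ∀ x y z t : KK E C P, ∀ p, (fK hE hC w hw ![x, y, z, t]).1 p =
      w ![x.1 p, y.1 p, z.1 p, t.1 p] := by
    intro x y z t p
    rw [fK_val]
    congr 1
    exact vec4 (fun g : KK E C P => g.1 p) x y z t
  obtain ⟨Lv, cv, hLv, hv'⟩ := hlin 2 v hv
  obtain ⟨Lw, cw, hLw, hw'⟩ := hlin 3 w hw
  have hv3 : ∀ x y z : KK E C P, x ∈ NN → y ∈ NN → z ∈ NN →
      φ (fK hE hC v hv ![x, y, z]) = Lv ![φ x, φ y, φ z] + cv := by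
    intro x y z hx hy hz
    rw [hv' ![x, y, z] (by intro i; fin_cases i <;> assumption)]
    congr 2
    exact vec3 φ x y z
  have hw4 : ∀ x y z t : KK E C P, x ∈ NN → y ∈ NN → z ∈ NN → t ∈ NN →
      φ (fK hE hC w hw ![x, y, z, t]) = Lw ![φ x, φ y, φ z, φ t] + cw := by
    intro x y z t hx hy hz ht
    rw [hw' ![x, y, z, t] (by intro i; fin_cases i <;> assumption)]
    congr 2
    exact vec4 φ x y z t
  have add3 : ∀ a b c a' b' c' : Q, Lv ![a + a', b + b', c + c'] = Lv ![a, b, c] + Lv ![a', b', c'] := by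
    intro a b c a' b' c'
    rw [← hLv]
    congr 1
    funext i
    fin_cases i <;> rfl
  have add4 : ∀ a b c d a' b' c' d' : Q, Lw ![a + a', b + b', c + c', d + d'] =
      Lw ![a, b, c, d] + Lw ![a', b', c', d'] := by
    intro a b c d a' b' c' d'
    rw [← hLw]
    congr 1
    funext i
    fin_cases i <;> rfl
  have Lv0 : Lv ![0, 0, 0] = 0 := by
    have := add3 0 0 0 0 0 0
    rw [add_zero] at this
    exact add_eq_left.1 this.symm
  have Lw0 : Lw ![0, 0, 0, 0] = 0 := by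
    have := add4 0 0 0 0 0 0 0 0
    rw [add_zero] at this
    exact add_eq_left.1 this.symm
  -- equalities in K
  have k1 : fK hE hC v hv ![n0, n0, n0] = n0 := by
    apply Subtype.ext; funext p; rw [ev3]; exact l1 _
  have k2 : fK hE hC v hv ![n1, n1, n1] = n1 := by
    apply Subtype.ext; funext p; rw [ev3]; exact l1 _
  have k3 : fK hE hC v hv ![n1, n0, n0] = fK hE hC v hv ![n0, n1, n0] := by
    apply Subtype.ext; funext p; rw [ev3, ev3]; exact (l3 _ _).1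
  have k4 : fK hE hC v hv ![n0, n1, n0] = fK hE hC v hv ![n0, n0, n1] := by
    apply Subtype.ext; funext p; rw [ev3, ev3]; exact (l3 _ _).2
  have j1 : fK hE hC w hw ![n0, n0, n0, n0] = n0 := by
    apply Subtype.ext; funext p; rw [ev4]; exact l2 _
  have j2 : fK hE hC w hw ![n1, n1, n1, n1] = n1 := by
    apply Subtype.ext; funext p; rw [ev4]; exact l2 _
  have j3 : fK hE hC w hw ![n1, n0, n0, n0] = fK hE hC w hw ![n0, n1, n0, n0] := by
    apply Subtype.ext; funext p; rw [ev4, ev4]; exact (l4 _ _).1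
  have j4 : fK hE hC w hw ![n0, n1, n0, n0] = fK hE hC w hw ![n0, n0, n1, n0] := by
    apply Subtype.ext; funext p; rw [ev4, ev4]; exact (l4 _ _).2.1
  have j5 : fK hE hC w hw ![n0, n0, n1, n0] = fK hE hC w hw ![n0, n0, n0, n1] := by
    apply Subtype.ext; funext p; rw [ev4, ev4]; exact (l4 _ _).2.2
  have j6 : fK hE hC v hv ![n1, n0, n0] = fK hE hC w hw ![n1, n0, n0, n0] := by
    apply Subtype.ext; funext p; rw [ev3, ev4]; exact l5 _ _
  have cv0 : cv = 0 := by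
    have h1 := hv3 n0 n0 n0 hn0N hn0N hn0N
    rw [k1, hφn0, Lv0, zero_add] at h1
    exact h1.symm
  have cw0 : cw = 0 := by
    have h1 := hw4 n0 n0 n0 n0 hn0N hn0N hn0N hn0N
    rw [j1, hφn0, Lw0, zero_add] at h1
    exact h1.symm
  have m1 := hv3 n1 n0 n0 hn1N hn0N hn0N
  have m2 := hv3 n0 n1 n0 hn0N hn1N hn0N
  have m3 := hv3 n0 n0 n1 hn0N hn0N hn1N
  have m4 := hv3 n1 n1 n1 hn1N hn1N hn1N
  have i1 := hw4 n1 n0 n0 n0 hn1N hn0N hn0N hn0N
  have i2 := hw4 n0 n1 n0 n0 hn0N hn1N hn0N hn0N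
  have i3 := hw4 n0 n0 n1 n0 hn0N hn0N hn1N hn0N
  have i4 := hw4 n0 n0 n0 n1 hn0N hn0N hn0N hn1N
  have i5 := hw4 n1 n1 n1 n1 hn1N hn1N hn1N hn1N
  rw [hφn0, hφn1, cv0, add_zero] at m1 m2 m3
  rw [k2, hφn1, cv0, add_zero] at m4
  rw [hφn0, hφn1, cw0, add_zero] at i1 i2 i3 i4
  rw [j2, hφn1, cw0, add_zero] at i5
  have a1 := add3 s 0 0 0 s 0
  have a2 := add3 s s 0 0 0 s
  have b1 := add4 s 0 0 0 0 s 0 0
  have b2 := add4 s s 0 0 0 0 s 0
  have b3 := add4 s s s 0 0 0 0 s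
  simp only [add_zero, zero_add] at a1 a2 b1 b2 b3
  obtain ⟨ℓ, hℓ⟩ : ∃ ℓ, ℓ = φ (fK hE hC v hv ![n1, n0, n0]) := ⟨_, rfl⟩
  have c1 : Lv ![s, 0, 0] = ℓ := by rw [hℓ]; exact m1.symm
  have c2 : Lv ![0, s, 0] = ℓ := by rw [hℓ, k3]; exact m2.symm
  have c3 : Lv ![0, 0, s] = ℓ := by rw [hℓ, k3, k4]; exact m3.symm
  have d1 : Lw ![s, 0, 0, 0] = ℓ := by rw [hℓ, j6]; exact i1.symm
  have d2 : Lw ![0, s, 0, 0] = ℓ := by rw [hℓ, j6, j3]; exact i2.symm
  have d3 : Lw ![0, 0, s, 0] = ℓ := by rw [hℓ, j6, j3, j4]; exact i3.symm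
  have d4 : Lw ![0, 0, 0, s] = ℓ := by rw [hℓ, j6, j3, j4, j5]; exact i4.symm
  have e1 : s = ℓ + ℓ + ℓ := by rw [m4, a2, a1, c1, c2, c3]
  have e2 : s = ℓ + ℓ + ℓ + ℓ := by rw [i5, b3, b2, b1, d1, d2, d3, d4]
  have e3 : ℓ = 0 := by
    have h1 : ℓ + ℓ + ℓ + ℓ = ℓ + ℓ + ℓ := by rw [← e2, ← e1]
    exact add_eq_left.1 h1
  rw [e1, e3]
  simp

end Pool.Agent.W435.BW
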